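import Pool.Agent.Helper379_HC.Stmts

/-!
# The kernel of a height function on a right-angled Artin group is not finitely presented:
holonomy argument (job HOL of project HC, MP_3ca9d5_al)
-/

set_option autoImplicit false

namespace Pool.Agent.Helper586_HC.Hol

open Pool.Agent.W326.DU Pool.Agent.Y66.HC Pool.Agent.Helper379_HC

/-! ## Crossed homomorphisms on a free group -/

/-- shift action of a group on the group of functions on it -/
def shAct (A J : Type) [Group A] [Group J] : A →* MulAut (A → J) where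
  toFun a :=
    { toFun := fun f g => f (g * a)
      invFun := fun f g => f (g * a⁻¹)
      left_inv := fun f => by funext g; simp
      right_inv := fun f => by funext g; simp
      map_mul' := fun f f' => by funext g; simp }
  map_one' := by ext f g; simp
  map_mul' a b := by ext f g; simp [mul_assoc]

theorem shAct_apply {A J : Type} [Group A] [Group J] (a : A) (f : A → J) (g : A) :
    shAct A J a f g = f (g * a) := rfl

section crossed

variable {V J A : Type} [Group J] [Group A] (s : V → A) (lam : A → A → J)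

/-- the right action of the free group -/
noncomputable def EE : FreeGroup V →* (A → J) ⋊[shAct A J] A :=
  FreeGroup.lift (fun v => ⟨fun g => lam g (g * s v), s v⟩)

/-- the crossed homomorphism -/
noncomputable def cc (w : FreeGroup V) (g : A) : J := (EE s lam w).left g

theorem EE_right (w : FreeGroup V) : (EE s lam w).right = FreeGroup.lift s w := by
  have h : (SemidirectProduct.rightHom.comp (EE s lam)) = FreeGroup.lift s := by
    apply FreeGroup.ext_hom
    intro v
    simp [EE]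
  exact DFunLike.congr_fun h w

theorem cc_mul (w w' : FreeGroup V) (g : A) :
    cc s lam (w * w') g = cc s lam w g * cc s lam w' (g * FreeGroup.lift s w) := by
  unfold cc
  rw [map_mul, SemidirectProduct.mul_left, Pi.mul_apply, shAct_apply, EE_right]

theorem cc_one (g : A) : cc s lam 1 g = 1 := by
  unfold cc
  rw [map_one]; rfl

theorem cc_inv (w : FreeGroup V) (g : A) :
    cc s lam w⁻¹ g = (cc s lam w (g * (FreeGroup.lift s w)⁻¹))⁻¹ := by
  have h := cc_mul s lam w w⁻¹ (g * (FreeGroup.lift s w)⁻¹)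
  rw [mul_inv_cancel, cc_one] at h
  rw [inv_mul_cancel_right] at h
  exact (inv_eq_of_mul_eq_one_right h.symm).symm

theorem cc_of (v : V) (g : A) : cc s lam (FreeGroup.of v) g = lam g (g * s v) := by
  unfold cc EE
  rw [FreeGroup.lift_apply_of]

theorem cc_of_inv (v : V) (g : A) :
    cc s lam (FreeGroup.of v)⁻¹ g = (lam (g * (s v)⁻¹) g)⁻¹ := by
  rw [cc_inv, cc_of, FreeGroup.lift_apply_of, inv_mul_cancel_right]

theorem cc_conj (h w : FreeGroup V) (hw : FreeGroup.lift s w = 1) (g : A)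
    (hc : cc s lam w (g * FreeGroup.lift s h) = 1) : cc s lam (h * w * h⁻¹) g = 1 := by
  rw [cc_mul, cc_mul, hc, cc_inv, map_mul, hw]
  simp

end crossed

/-! ## Powers -/

section powers

variable {V J A : Type} [Group J] [Group A] (s : V → A) (lam : A → A → J)

/-- a power: the values of the crossed homomorphism along the orbit telescope -/
theorem cc_pow_telescope (w : FreeGroup V) (g : A) (Γ : ℕ → J) (M : ℕ)
    (h : ∀ k < M, cc s lam w (g * (FreeGroup.lift s w) ^ k) = (Γ k)⁻¹ * Γ (k + 1)) :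
    cc s lam (w ^ M) g = (Γ 0)⁻¹ * Γ M := by
  induction M with
  | zero => simp [cc_one]
  | succ n ih =>
    rw [pow_succ, cc_mul, map_pow, h n (Nat.lt_succ_self n),
      ih (fun k hk => h k (Nat.lt_succ_of_lt hk))]
    group

/-- two words with the same values along an orbit have the same powers -/
theorem cc_pow_congr (w w' : FreeGroup V) (hw : FreeGroup.lift s w = FreeGroup.lift s w') (g : A)
    (M : ℕ) (h : ∀ k < M, cc s lam w (g * (FreeGroup.lift s w) ^ k) =
      cc s lam w' (g * (FreeGroup.lift s w) ^ k)) :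
    cc s lam (w ^ M) g = cc s lam (w' ^ M) g := by
  induction M with
  | zero => simp [cc_one]
  | succ n ih =>
    rw [pow_succ, pow_succ, cc_mul, cc_mul, map_pow, map_pow, ← hw, h n (Nat.lt_succ_self n),
      ih (fun k hk => h k (Nat.lt_succ_of_lt hk))]

/-- a product along a path -/
theorem cc_list_prod (f : ℕ → FreeGroup V) (g : ℕ → A) (c : ℕ → J) (l : ℕ)
    (hg : ∀ i < l, g i * FreeGroup.lift s (f i) = g (i + 1))
    (hc : ∀ i < l, cc s lam (f i) (g i) = c i) :
    g 0 * FreeGroup.lift s (((List.range l).map f).prod) = g l ∧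
      cc s lam (((List.range l).map f).prod) (g 0) = ((List.range l).map c).prod := by
  induction l with
  | zero => simp [cc_one]
  | succ n ih =>
    obtain ⟨h1, h2⟩ := ih (fun i hi => hg i (Nat.lt_succ_of_lt hi))
      (fun i hi => hc i (Nat.lt_succ_of_lt hi))
    rw [List.range_succ, List.map_append, List.map_append, List.prod_append, List.prod_append]
    simp only [List.map_cons, List.map_nil, List.prod_cons, List.prod_nil, mul_one]
    refine ⟨?_, ?_⟩
    · rw [map_mul, ← mul_assoc, h1, hg n (Nat.lt_succ_self n)]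
    · rw [cc_mul, h1, h2, hc n (Nat.lt_succ_self n)]

end powers

/-! ## The right-angled Artin group -/

theorem lift_gen {V : Type} (ad : V → V → Prop) (w : FreeGroup V) :
    FreeGroup.lift (gen ad) w = PresentedGroup.mk (rels ad) w := by
  have h : FreeGroup.lift (gen ad) = PresentedGroup.mk (rels ad) := by
    apply FreeGroup.ext_hom
    intro v
    simp [gen, PresentedGroup.of]
  rw [h]

theorem gen_comm {V : Type} {ad : V → V → Prop} {u v : V} (h : ad u v) :
    gen ad u * gen ad v = gen ad v * gen ad u := by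
  have h1 : PresentedGroup.mk (rels ad)
      (FreeGroup.of u * FreeGroup.of v * (FreeGroup.of u)⁻¹ * (FreeGroup.of v)⁻¹) = 1 :=
    PresentedGroup.one_of_mem ⟨u, v, h, rfl⟩
  rw [map_mul, map_mul, map_mul, map_inv, map_inv] at h1
  have h2 := mul_inv_eq_one.mp h1
  have h3 := mul_inv_eq_iff_eq_mul.mp h2
  exact h3

/-- the height of a group element -/
def lev {A : Type} [Group A] (χ : A →* Multiplicative ℤ) (g : A) : ℤ := Multiplicative.toAdd (χ g)

theorem lev_mul {A : Type} [Group A] (χ : A →* Multiplicative ℤ) (g h : A) :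
    lev χ (g * h) = lev χ g + lev χ h := by
  unfold lev; rw [map_mul]; rfl

theorem lev_one {A : Type} [Group A] (χ : A →* Multiplicative ℤ) : lev χ 1 = 0 := by
  unfold lev; rw [map_one]; rfl

theorem lev_inv {A : Type} [Group A] (χ : A →* Multiplicative ℤ) (g : A) :
    lev χ g⁻¹ = - lev χ g := by
  unfold lev; rw [map_inv]; rfl

theorem ne_one_of_lev {A : Type} [Group A] (χ : A →* Multiplicative ℤ) {g : A}
    (h : lev χ g ≠ 0) : g ≠ 1 := by
  rintro rfl; exact h (lev_one χ)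

section raag

variable {V J : Type} [Group J] (ad : V → V → Prop) (γ : V → V → J)
  (χ : RAAG ad →* Multiplicative ℤ) (q : RAAG ad → V)

/-- the values on pairs of group elements -/
noncomputable def lam (g g' : RAAG ad) : J := by
  classical exact if g = 1 ∨ g' = 1 then 1 else γ (q g) (q g')

theorem lam_eq {g g' : RAAG ad} (h : g ≠ 1) (h' : g' ≠ 1) : lam ad γ q g g' = γ (q g) (q g') := by
  unfold lam
  rw [if_neg (by tauto)]

variable (hcoc : ∀ u v w, (u = v ∨ ad u v) → (v = w ∨ ad v w) → (u = w ∨ ad u w) →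
  γ u v * γ v w = γ u w)
  (hχ : ∀ v, χ (gen ad v) = Multiplicative.ofAdd 1)

include hχ in
theorem lev_gen (v : V) : lev χ (gen ad v) = 1 := by
  unfold lev; rw [hχ]; rfl

include hcoc in
theorem γ_self (u : V) : γ u u = 1 := by
  have h := hcoc u u u (Or.inl rfl) (Or.inl rfl) (Or.inl rfl)
  exact mul_eq_left.mp h

include hcoc hχ in
theorem comm_trivial (F : RAAG ad → Set V)
    (FK : ∀ g u v, ad u v → ∃ K : Set V, (∀ a ∈ K, ∀ b ∈ K, a = b ∨ ad a b) ∧
      F g ⊆ K ∧ F (g * gen ad u) ⊆ K ∧ F (g * gen ad v) ⊆ K ∧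
      F (g * gen ad u * gen ad v) ⊆ K)
    (hq : ∀ g, g ≠ 1 → q g ∈ F g) (g : RAAG ad) (hg : 3 ≤ |lev χ g|) (u v : V) (had : ad u v) :
    cc (gen ad) (lam ad γ q)
      (FreeGroup.of u * FreeGroup.of v * (FreeGroup.of u)⁻¹ * (FreeGroup.of v)⁻¹) g = 1 := by
  have hc := gen_comm had
  obtain ⟨K, hK, k1, k2, k3, k4⟩ := FK g u v had
  have lg := lev_gen ad χ hχ
  have n0 : g ≠ 1 := ne_one_of_lev χ (by intro h; rw [h] at hg; simp at hg)
  have n1 : g * gen ad u ≠ 1 := ne_one_of_lev χ (by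
    rw [lev_mul, lg]; intro h
    have h' : lev χ g = -1 := by omega
    rw [h'] at hg; simp at hg)
  have n2 : g * gen ad v ≠ 1 := ne_one_of_lev χ (by
    rw [lev_mul, lg]; intro h
    have h' : lev χ g = -1 := by omega
    rw [h'] at hg; simp at hg)
  have n3 : g * gen ad u * gen ad v ≠ 1 := ne_one_of_lev χ (by
    rw [lev_mul, lev_mul, lg, lg]; intro h
    have h' : lev χ g = -2 := by omega
    rw [h'] at hg; simp at hg)
  have e1 : g * gen ad u * gen ad v * (gen ad u)⁻¹ = g * gen ad v := by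
    rw [mul_assoc g, hc]; group
  rw [cc_mul, cc_mul, cc_mul, cc_of, cc_of, cc_of_inv, cc_of_inv]
  simp only [map_mul, map_inv, FreeGroup.lift_apply_of]
  rw [show g * (gen ad u * gen ad v) = g * gen ad u * gen ad v from (mul_assoc _ _ _).symm,
    show g * (gen ad u * gen ad v * (gen ad u)⁻¹) = g * gen ad u * gen ad v * (gen ad u)⁻¹ by group,
    e1, mul_inv_cancel_right]
  rw [lam_eq ad γ q n0 n1, lam_eq ad γ q n1 n3, lam_eq ad γ q n2 n3, lam_eq ad γ q n0 n2]
  have m0 := k1 (hq _ n0)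
  have m1 := k2 (hq _ n1)
  have m2 := k3 (hq _ n2)
  have m3 := k4 (hq _ n3)
  have h1 := hcoc _ _ _ (hK _ m0 _ m1) (hK _ m1 _ m3) (hK _ m0 _ m3)
  have h2 := hcoc _ _ _ (hK _ m0 _ m2) (hK _ m2 _ m3) (hK _ m0 _ m3)
  rw [h1, ← h2]
  group

/-- words which are trivial in the group and act trivially far away -/
def NN : Subgroup (FreeGroup V) where
  carrier := {w | FreeGroup.lift (gen ad) w = 1 ∧
    ∃ M0 : ℕ, ∀ g, (M0 : ℤ) ≤ |lev χ g| → cc (gen ad) (lam ad γ q) w g = 1}
  one_mem' := ⟨map_one _, 0, fun g _ => cc_one _ _ g⟩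
  mul_mem' := by
    rintro a b ⟨ha, M, hM⟩ ⟨hb, M', hM'⟩
    refine ⟨by rw [map_mul, ha, hb, one_mul], max M M', fun g hg => ?_⟩
    have h1 : (M : ℤ) ≤ |lev χ g| := le_trans (by exact_mod_cast le_max_left M M') hg
    have h2 : (M' : ℤ) ≤ |lev χ g| := le_trans (by exact_mod_cast le_max_right M M') hg
    rw [cc_mul, ha, mul_one, hM g h1, hM' g h2, one_mul]
  inv_mem' := by
    rintro a ⟨ha, M, hM⟩
    refine ⟨by rw [map_inv, ha, inv_one], M, fun g hg => ?_⟩
    rw [cc_inv, ha, inv_one, mul_one, hM g hg, inv_one]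

theorem NN_normal : (NN ad γ χ q).Normal := by
  refine ⟨fun w hw h => ?_⟩
  obtain ⟨h1, M, hM⟩ := hw
  refine ⟨by rw [map_mul, map_mul, h1, map_inv]; group,
    M + (lev χ (FreeGroup.lift (gen ad) h)).natAbs, fun g hg => ?_⟩
  apply cc_conj _ _ _ _ h1
  apply hM
  rw [lev_mul]
  push_cast at hg
  have h3 := abs_sub_abs_le_abs_sub (lev χ g) (-(lev χ (FreeGroup.lift (gen ad) h)))
  rw [abs_neg, sub_neg_eq_add] at h3
  omega

include hcoc hχ in
theorem far_trivial (F : RAAG ad → Set V)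
    (FK : ∀ g u v, ad u v → ∃ K : Set V, (∀ a ∈ K, ∀ b ∈ K, a = b ∨ ad a b) ∧
      F g ⊆ K ∧ F (g * gen ad u) ⊆ K ∧ F (g * gen ad v) ⊆ K ∧
      F (g * gen ad u * gen ad v) ⊆ K)
    (hq : ∀ g, g ≠ 1 → q g ∈ F g) (w : FreeGroup V) (hw : FreeGroup.lift (gen ad) w = 1) :
    ∃ M0 : ℕ, ∀ g, (M0 : ℤ) ≤ |lev χ g| → cc (gen ad) (lam ad γ q) w g = 1 := by
  have h1 : w ∈ Subgroup.normalClosure (rels ad) := by
    rw [lift_gen] at hw
    exact (QuotientGroup.eq_one_iff w).mp hw
  have := NN_normal ad γ χ q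
  have h2 : Subgroup.normalClosure (rels ad) ≤ NN ad γ χ q := by
    apply Subgroup.normalClosure_le_normal
    rintro r ⟨u, v, had, rfl⟩
    refine ⟨?_, 3, fun g hg => comm_trivial ad γ χ q hcoc hχ F FK hq g (by exact_mod_cast hg)
      u v had⟩
    rw [lift_gen]
    exact PresentedGroup.one_of_mem ⟨u, v, had, rfl⟩
  exact (h2 h1).2

theorem F_pow_inv {F : RAAG ad → Set V} (F1 : F 1 = ∅)
    (Fs' : ∀ g v, F (g * (gen ad v)⁻¹) ⊆ insert v (F g)) (u : V) (M : ℕ) :
    F ((gen ad u)⁻¹ ^ M) ⊆ {u} := by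
  induction M with
  | zero => rw [pow_zero, F1]; exact Set.empty_subset _
  | succ n ih =>
    rw [pow_succ]
    refine (Fs' _ _).trans ?_
    rintro x (rfl | hx)
    · rfl
    · exact ih hx

theorem F_pow_pair {F : RAAG ad → Set V}
    (Fs : ∀ g v, F (g * gen ad v) ⊆ insert v (F g))
    (Fs' : ∀ g v, F (g * (gen ad v)⁻¹) ⊆ insert v (F g)) (u v : V) (g : RAAG ad)
    (hg : F g ⊆ {u, v}) (k : ℕ) :
    F (g * (gen ad u * (gen ad v)⁻¹) ^ k) ⊆ {u, v} := by
  induction k with
  | zero => rwa [pow_zero, mul_one]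
  | succ n ih =>
    rw [pow_succ, ← mul_assoc, ← mul_assoc]
    refine (Fs' _ _).trans ?_
    rintro x (rfl | hx)
    · simp
    · rcases (Fs _ _) hx with rfl | hx
      · simp
      · exact ih hx

include hχ in
theorem lev_pow_inv (u : V) (M : ℕ) : lev χ ((gen ad u)⁻¹ ^ M) = -M := by
  induction M with
  | zero => rw [pow_zero, lev_one]; simp
  | succ n ih => rw [pow_succ, lev_mul, ih, lev_inv, lev_gen ad χ hχ]; push_cast; ring

include hχ in
theorem lev_pow_pair (u v : V) (k : ℕ) : lev χ ((gen ad u * (gen ad v)⁻¹) ^ k) = 0 := by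
  induction k with
  | zero => rw [pow_zero, lev_one]
  | succ n ih =>
    rw [pow_succ, lev_mul, ih, lev_mul, lev_inv, lev_gen ad χ hχ, lev_gen ad χ hχ]; ring

theorem pow_pair {u v : V} (had : ad u v) (M : ℕ) :
    (gen ad u)⁻¹ ^ M * (gen ad u * (gen ad v)⁻¹) ^ M = (gen ad v)⁻¹ ^ M := by
  have hc : Commute (gen ad u) (gen ad v)⁻¹ :=
    Commute.inv_right (gen_comm had)
  rw [hc.mul_pow, ← mul_assoc, inv_pow, inv_mul_cancel, one_mul]

include hcoc hχ in
/-- at the right place, the word `(u v⁻¹)^M` acts by `γ u v` -/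
theorem holo_step {F : RAAG ad → Set V} (F1 : F 1 = ∅)
    (Fs : ∀ g v, F (g * gen ad v) ⊆ insert v (F g))
    (Fs' : ∀ g v, F (g * (gen ad v)⁻¹) ⊆ insert v (F g))
    (hq : ∀ g, g ≠ 1 → q g ∈ F g) (hsym : ∀ a b, ad a b → ad b a)
    (u v : V) (had : ad u v) (M : ℕ) (hM : 2 ≤ M) :
    cc (gen ad) (lam ad γ q) ((FreeGroup.of u * (FreeGroup.of v)⁻¹) ^ M) ((gen ad u)⁻¹ ^ M) =
      γ u v := by
  have hlift : FreeGroup.lift (gen ad) (FreeGroup.of u * (FreeGroup.of v)⁻¹) =
      gen ad u * (gen ad v)⁻¹ := by simp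
  have lg := lev_gen ad χ hχ
  have hK : ∀ a ∈ ({u, v} : Set V), ∀ b ∈ ({u, v} : Set V), a = b ∨ ad a b := by
    rintro a (rfl | rfl) b (rfl | rfl)
    · exact Or.inl rfl
    · exact Or.inr had
    · exact Or.inr (hsym _ _ had)
    · exact Or.inl rfl
  have hu : u ∈ ({u, v} : Set V) := by simp
  have F0 : F ((gen ad u)⁻¹ ^ M) ⊆ {u, v} :=
    (F_pow_inv ad F1 Fs' u M).trans (by intro x hx; rw [Set.mem_singleton_iff] at hx; simp [hx])
  have nM : ∀ w : V, (gen ad w)⁻¹ ^ M ≠ 1 := fun w => ne_one_of_lev χ (by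
    rw [lev_pow_inv ad χ hχ]; intro h; omega)
  have qM : ∀ w : V, q ((gen ad w)⁻¹ ^ M) = w := fun w =>
    F_pow_inv ad F1 Fs' w M (hq _ (nM w))
  have key := cc_pow_telescope (gen ad) (lam ad γ q) (FreeGroup.of u * (FreeGroup.of v)⁻¹)
    ((gen ad u)⁻¹ ^ M)
    (fun k => γ u (q ((gen ad u)⁻¹ ^ M * (gen ad u * (gen ad v)⁻¹) ^ k))) M ?_
  · rw [key]
    simp only [pow_zero, mul_one]
    rw [pow_pair ad had, qM, qM, γ_self ad γ hcoc]
    simp
  · intro k _
    rw [hlift]
    set g : RAAG ad := (gen ad u)⁻¹ ^ M * (gen ad u * (gen ad v)⁻¹) ^ k with hg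
    have lgk : lev χ g = -M := by
      rw [hg, lev_mul, lev_pow_inv ad χ hχ, lev_pow_pair ad χ hχ, add_zero]
    have Fg : F g ⊆ {u, v} := F_pow_pair ad Fs Fs' u v _ F0 k
    have n0 : g ≠ 1 := ne_one_of_lev χ (by rw [lgk]; omega)
    have n1 : g * gen ad u ≠ 1 := ne_one_of_lev χ (by rw [lev_mul, lgk, lg]; omega)
    have n2 : g * gen ad u * (gen ad v)⁻¹ ≠ 1 := ne_one_of_lev χ (by
      rw [lev_mul, lev_mul, lgk, lg, lev_inv, lg]; omega)
    have F1' : F (g * gen ad u) ⊆ {u, v} := by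
      refine (Fs _ _).trans ?_
      rintro x (rfl | hx)
      · simp
      · exact Fg hx
    have F2' : F (g * gen ad u * (gen ad v)⁻¹) ⊆ {u, v} := by
      refine (Fs' _ _).trans ?_
      rintro x (rfl | hx)
      · simp
      · exact F1' hx
    have e : (gen ad u)⁻¹ ^ M * (gen ad u * (gen ad v)⁻¹) ^ (k + 1) =
        g * gen ad u * (gen ad v)⁻¹ := by
      rw [pow_succ, hg]; group
    rw [e, cc_mul, cc_of, FreeGroup.lift_apply_of, cc_of_inv, lam_eq ad γ q n0 n1,
      lam_eq ad γ q n2 n1]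
    have m0 := Fg (hq _ n0)
    have m1 := F1' (hq _ n1)
    have m2 := F2' (hq _ n2)
    have h1 := hcoc _ _ _ (hK _ hu _ m0) (hK _ m0 _ m1) (hK _ hu _ m1)
    have h2 := hcoc _ _ _ (hK _ hu _ m2) (hK _ m2 _ m1) (hK _ hu _ m1)
    rw [← h1] at h2
    rw [eq_inv_mul_iff_mul_eq, ← mul_assoc, ← h2]
    group

end raag

/-- **HOL** -/
theorem hol (hp : PropPile) : PropHol := by
  intro V J _ _ ad γ l p hG χ hχ k φ hφ S hS hSk
  have : Nonempty V := ⟨p 0⟩
  obtain ⟨F, F1, Fne, Fs, Fs', FK⟩ := hp V ad hG.symm hG.irr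
  choose! q hq using Fne
  have far := far_trivial ad γ χ q hG.coc hχ F FK hq
  have hsurj : ∀ a : RAAG ad, ∃ w : FreeGroup V, FreeGroup.lift (gen ad) w = a := by
    intro a
    obtain ⟨w, hw⟩ := PresentedGroup.mk_surjective (rels ad) a
    exact ⟨w, by rw [lift_gen, hw]⟩
  choose ψ0 hψ0 using fun i : Fin k => hsurj (φ (FreeGroup.of i))
  obtain ⟨ψ, hψ⟩ : ∃ ψ : FreeGroup (Fin k) →* FreeGroup V,
      ∀ x, FreeGroup.lift (gen ad) (ψ x) = φ x := by
    refine ⟨FreeGroup.lift ψ0, ?_⟩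
    have h : (FreeGroup.lift (gen ad)).comp (FreeGroup.lift ψ0) = φ := by
      apply FreeGroup.ext_hom; intro i; simp [hψ0]
    exact fun x => DFunLike.congr_fun h x
  have hlev0 : ∀ x, lev χ (φ x) = 0 := by
    intro x
    have h : φ x ∈ χ.ker := by rw [← hφ]; exact ⟨x, rfl⟩
    unfold lev
    rw [MonoidHom.mem_ker.mp h]; rfl
  -- the relators in `S`
  obtain ⟨M0, hM0⟩ : ∃ M0 : ℕ, ∀ r ∈ S, ∀ g, (M0 : ℤ) ≤ |lev χ g| →
      cc (gen ad) (lam ad γ q) (ψ r) g = 1 := by
    have h : ∀ r ∈ S, ∃ M0 : ℕ, ∀ g, (M0 : ℤ) ≤ |lev χ g| →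
        cc (gen ad) (lam ad γ q) (ψ r) g = 1 := by
      intro r hr
      apply far
      rw [hψ]
      have h1 : r ∈ φ.ker := by rw [← hSk]; exact Subgroup.subset_normalClosure hr
      exact h1
    choose! m hm using h
    obtain ⟨B, hB⟩ := (hS.image m).bddAbove
    exact ⟨B, fun r hr g hg => hm r hr g (le_trans (by exact_mod_cast hB ⟨r, hr, rfl⟩) hg)⟩
  -- the kernel of `φ`
  have hker : ∀ x ∈ φ.ker, ∀ g, (M0 : ℤ) ≤ |lev χ g| →
      cc (gen ad) (lam ad γ q) (ψ x) g = 1 := by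
    let P : Subgroup (FreeGroup (Fin k)) :=
      { carrier := {x | φ x = 1 ∧ ∀ g, (M0 : ℤ) ≤ |lev χ g| →
          cc (gen ad) (lam ad γ q) (ψ x) g = 1}
        one_mem' := ⟨map_one _, fun g _ => by rw [map_one, cc_one]⟩
        mul_mem' := by
          rintro a b ⟨ha, hA⟩ ⟨hb, hB⟩
          refine ⟨by rw [map_mul, ha, hb, one_mul], fun g hg => ?_⟩
          rw [map_mul, cc_mul, hψ, ha, mul_one, hA g hg, hB g hg, one_mul]
        inv_mem' := by
          rintro a ⟨ha, hA⟩
          refine ⟨by rw [map_inv, ha, inv_one], fun g hg => ?_⟩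
          rw [map_inv, cc_inv, hψ, ha, inv_one, mul_one, hA g hg, inv_one] }
    have hPn : P.Normal := by
      refine ⟨fun w hw h => ?_⟩
      obtain ⟨h1, h2⟩ := hw
      refine ⟨by rw [map_mul, map_mul, h1, map_inv]; group, fun g hg => ?_⟩
      rw [map_mul, map_mul, map_inv]
      apply cc_conj _ _ _ _ (by rw [hψ, h1])
      apply h2
      rw [hψ, lev_mul, hlev0, add_zero]
      exact hg
    have hSP : Subgroup.normalClosure S ≤ P := by
      apply Subgroup.normalClosure_le_normal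
      intro r hr
      refine ⟨?_, hM0 r hr⟩
      have h1 : r ∈ φ.ker := by rw [← hSk]; exact Subgroup.subset_normalClosure hr
      exact h1
    intro x hx
    rw [← hSk] at hx
    exact (hSP hx).2
  -- the elements `f i`
  have hf : ∀ i, i < l → ∃ x : FreeGroup (Fin k),
      φ x = gen ad (p i) * (gen ad (p (i + 1)))⁻¹ := by
    intro i _
    have h : gen ad (p i) * (gen ad (p (i + 1)))⁻¹ ∈ φ.range := by
      rw [hφ, MonoidHom.mem_ker, map_mul, map_inv, hχ, hχ, mul_inv_cancel]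
    exact h
  choose! f hf using hf
  obtain ⟨M1, hM1⟩ : ∃ M1 : ℕ, ∀ i, i < l → ∀ g, (M1 : ℤ) ≤ |lev χ g| →
      cc (gen ad) (lam ad γ q) (ψ (f i)) g =
        cc (gen ad) (lam ad γ q) (FreeGroup.of (p i) * (FreeGroup.of (p (i + 1)))⁻¹) g := by
    have h : ∀ i, i < l → ∃ M1 : ℕ, ∀ g, (M1 : ℤ) ≤ |lev χ g| →
      cc (gen ad) (lam ad γ q) (ψ (f i)) g =
        cc (gen ad) (lam ad γ q) (FreeGroup.of (p i) * (FreeGroup.of (p (i + 1)))⁻¹) g := by
      intro i hi
      obtain ⟨M, hM⟩ := far (ψ (f i) * (FreeGroup.of (p i) * (FreeGroup.of (p (i + 1)))⁻¹)⁻¹)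
        (by rw [map_mul, hψ, hf i hi]; simp)
      refine ⟨M, fun g hg => ?_⟩
      have h1 := hM g hg
      rw [cc_mul, cc_inv, hψ, hf i hi] at h1
      have h2 : FreeGroup.lift (gen ad) (FreeGroup.of (p i) * (FreeGroup.of (p (i + 1)))⁻¹) =
        gen ad (p i) * (gen ad (p (i + 1)))⁻¹ := by simp
      rw [h2, mul_inv_cancel_right] at h1
      exact mul_inv_eq_one.mp h1
    choose! m hm using h
    refine ⟨(Finset.range l).sup m, fun i hi g hg => hm i hi g (le_trans ?_ hg)⟩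
    exact_mod_cast Finset.le_sup (f := m) (Finset.mem_range.mpr hi)
  -- the word `w`
  obtain ⟨M, hMM0, hMM1, hM2⟩ : ∃ M : ℕ, M0 ≤ M ∧ M1 ≤ M ∧ 2 ≤ M :=
    ⟨M0 + M1 + 2, by omega, by omega, by omega⟩
  have hstep : ∀ i, i < l → cc (gen ad) (lam ad γ q) (ψ (f i ^ M)) ((gen ad (p i))⁻¹ ^ M) =
      γ (p i) (p (i + 1)) := by
    intro i hi
    rw [map_pow, ← holo_step ad γ χ q hG.coc hχ F1 Fs Fs' hq hG.symm (p i) (p (i + 1))
      (hG.path i hi) M hM2]
    apply cc_pow_congr
    · rw [hψ, hf i hi]; simp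
    · intro n _
      apply hM1 i hi
      rw [hψ, hf i hi, lev_mul, lev_pow_inv ad χ hχ, lev_pow_pair ad χ hχ, add_zero, abs_neg,
        Nat.abs_cast]
      exact_mod_cast hMM1
  have hgo : ∀ i, i < l → (gen ad (p i))⁻¹ ^ M * FreeGroup.lift (gen ad) (ψ (f i ^ M)) =
      (gen ad (p (i + 1)))⁻¹ ^ M := by
    intro i hi
    rw [hψ, map_pow, hf i hi, pow_pair ad (hG.path i hi)]
  obtain ⟨h1, h2⟩ := cc_list_prod (gen ad) (lam ad γ q) (fun i => ψ (f i ^ M))
    (fun i => (gen ad (p i))⁻¹ ^ M) (fun i => γ (p i) (p (i + 1))) l hgo hstep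
  have hw : ((List.range l).map (fun i => ψ (f i ^ M))).prod =
      ψ (((List.range l).map (fun i => f i ^ M)).prod) := by
    rw [map_list_prod, List.map_map]; rfl
  rw [hw, hG.closed] at h1
  rw [hw] at h2
  have h3 : φ (((List.range l).map (fun i => f i ^ M)).prod) = 1 := by
    rw [hψ] at h1
    exact mul_eq_left.mp h1
  apply hG.hol
  rw [← h2]
  apply hker _ h3
  rw [lev_pow_inv ad χ hχ, abs_neg, Nat.abs_cast]
  exact_mod_cast hMM0

end Pool.Agent.Helper586_HC.Hol
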